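import Pool.Agent.PLG.Stmts

/-!
Squad PLG (MP_1fc801_co), row GRO: growth in the thick case.
-/

set_option autoImplicit false

namespace Pool.Agent.PLG.H46

open Module MeasureTheory Metric

/-- covering of a ball of a finite dimensional real normed space -/
theorem cover_card {F : Type*} [NormedAddCommGroup F] [NormedSpace ℝ F] [FiniteDimensional ℝ F]
    (s : Finset F) (a b : ℝ) (ha : 0 ≤ a) (hb : 0 ≤ b)
    (h : ∀ w : F, ‖w‖ ≤ a → ∃ c ∈ s, ‖w - c‖ ≤ b) :
    a ^ finrank ℝ F ≤ (s.card : ℝ) * b ^ finrank ℝ F := by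
  borelize F
  let μ : Measure F := Measure.addHaar
  have hsub : closedBall (0 : F) a ⊆ ⋃ c ∈ s, closedBall c b := by
    intro w hw
    rw [mem_closedBall, dist_zero_right] at hw
    obtain ⟨c, hc, hwc⟩ := h w hw
    simp only [Set.mem_iUnion]
    refine ⟨c, hc, ?_⟩
    rw [mem_closedBall, dist_eq_norm]
    exact hwc
  have I : ENNReal.ofReal (a ^ finrank ℝ F) * μ (ball 0 1) ≤
      (s.card : ENNReal) * ENNReal.ofReal (b ^ finrank ℝ F) * μ (ball 0 1) :=
    calc
      ENNReal.ofReal (a ^ finrank ℝ F) * μ (ball 0 1) = μ (closedBall (0 : F) a) := by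
        rw [μ.addHaar_closedBall _ ha]
      _ ≤ μ (⋃ c ∈ s, closedBall c b) := measure_mono hsub
      _ ≤ ∑ c ∈ s, μ (closedBall c b) := measure_biUnion_finset_le _ _
      _ = (s.card : ENNReal) * ENNReal.ofReal (b ^ finrank ℝ F) * μ (ball 0 1) := by
        simp only [μ.addHaar_closedBall _ hb]
        simp only [Finset.sum_const, nsmul_eq_mul, mul_assoc]
  have J : ENNReal.ofReal (a ^ finrank ℝ F) ≤
      (s.card : ENNReal) * ENNReal.ofReal (b ^ finrank ℝ F) :=
    (ENNReal.mul_le_mul_iff_left (measure_ball_pos _ _ zero_lt_one).ne' measure_ball_lt_top.ne).1 I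
  have e : (s.card : ENNReal) * ENNReal.ofReal (b ^ finrank ℝ F) =
      ENNReal.ofReal ((s.card : ℝ) * b ^ finrank ℝ F) := by
    rw [ENNReal.ofReal_mul (Nat.cast_nonneg _), ENNReal.ofReal_natCast]
  rw [e] at J
  exact (ENNReal.ofReal_le_ofReal_iff (by positivity)).1 J

/-- maximal separated subsets -/
theorem exists_sep {α : Type*} [DecidableEq α] (B : Finset α) (N : α → α → ℝ) (t : ℝ)
    (ht : 0 ≤ t) (h0 : ∀ x ∈ B, N x x = 0) (hs : ∀ x y, N x y = N y x) :
    ∃ Y ⊆ B, (∀ x ∈ Y, ∀ y ∈ Y, x ≠ y → t < N x y) ∧ ∀ x ∈ B, ∃ y ∈ Y, N x y ≤ t := by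
  classical
  obtain ⟨Q, hQ⟩ : ∃ Q : Finset α → Prop, ∀ Y, Q Y ↔
      ∀ x ∈ Y, ∀ y ∈ Y, x ≠ y → t < N x y := ⟨_, fun _ => Iff.rfl⟩
  have hne : (B.powerset.filter Q).Nonempty := by
    refine ⟨∅, ?_⟩
    rw [Finset.mem_filter, hQ]
    refine ⟨Finset.mem_powerset.2 (Finset.empty_subset _), ?_⟩
    intro x hx
    exact absurd hx (Finset.notMem_empty x)
  obtain ⟨Y, hY, hmax⟩ := Finset.exists_max_image _ Finset.card hne
  rw [Finset.mem_filter, Finset.mem_powerset, hQ] at hY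
  refine ⟨Y, hY.1, hY.2, ?_⟩
  intro x hx
  by_cases hxY : x ∈ Y
  · exact ⟨x, hxY, by rw [h0 x hx]; exact ht⟩
  by_contra hno
  push Not at hno
  have h1 : insert x Y ∈ B.powerset.filter Q := by
    rw [Finset.mem_filter, Finset.mem_powerset, hQ]
    refine ⟨Finset.insert_subset hx hY.1, ?_⟩
    intro u hu v hv huv
    rw [Finset.mem_insert] at hu hv
    rcases hu with rfl | hu
    · rcases hv with rfl | hv
      · exact absurd rfl huv
      · exact hno v hv
    · rcases hv with rfl | hv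
      · rw [hs]
        exact hno u hu
      · exact hY.2 u hu v hv huv
  have h2 := hmax _ h1
  rw [Finset.card_insert_of_notMem hxY] at h2
  omega

theorem f_span {E : Type} [NormedAddCommGroup E] [NormedSpace ℝ E] (f : ℂ →+ E) {ι : Type}
    (x : ι → ℂ) {z : ℂ} (hz : z ∈ Submodule.span ℚ (Set.range x)) :
    f z ∈ Submodule.span ℝ (Set.range fun i => f (x i)) := by
  refine Submodule.span_induction (p := fun z _ => f z ∈ Submodule.span ℝ
    (Set.range fun i => f (x i))) ?_ ?_ ?_ ?_ hz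
  · rintro _ ⟨i, rfl⟩
    exact Submodule.subset_span ⟨i, rfl⟩
  · rw [map_zero]
    exact Submodule.zero_mem _
  · intro a b _ _ ha hb
    rw [map_add]
    exact Submodule.add_mem _ ha hb
  · intro c a _ ha
    rw [f_rat]
    exact Submodule.smul_mem _ _ ha

theorem gro (hrnk : RnkStmt) : GroStmt := by
  intro E _ _ f G d τ r hG hτ hτr hr hd hGs
  classical
  have hr0 : 0 < r := lt_of_lt_of_le hτ hτr
  have hd0 : (0 : ℝ) ≤ d := Nat.cast_nonneg _
  have : FiniteDimensional ℚ (Submodule.span ℚ (bl f G τ : Set ℂ)) :=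
    FiniteDimensional.span_of_finite ℚ (Finset.finite_toSet _)
  obtain ⟨x, hx1, hx2, hx3⟩ :=
    Submodule.exists_fun_fin_finrank_span_eq ℚ (bl f G τ : Set ℂ)
  change finrank ℚ (Submodule.span ℚ (bl f G τ : Set ℂ)) = d at hd
  generalize hn : finrank ℚ (Submodule.span ℚ (bl f G τ : Set ℂ)) = n at x hx1 hx2 hx3 hd
  subst hd
  have hxG : ∀ i, x i ∈ G ∧ ‖f (x i)‖ ≤ τ := fun i => (mem_bl hG).1 (hx1 i)
  set F : Submodule ℝ E := Submodule.span ℝ (Set.range fun i => f (x i)) with hF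
  have : FiniteDimensional ℝ F := FiniteDimensional.span_of_finite ℝ (Set.finite_range _)
  have hfF : ∀ z ∈ G, f z ∈ F := by
    intro z hz
    apply f_span
    rw [hx2]
    exact hGs z hz
  -- the dimension
  have hk : n ≤ finrank ℝ F := by
    have h1 := hrnk E f G τ hG
    have h2 : finrank ℚ (bs f G τ) = n := hn
    rw [h2] at h1
    refine h1.trans (Submodule.finrank_mono ?_)
    rw [Submodule.span_le]
    rintro _ ⟨z, hz, rfl⟩
    exact hfF z ((mem_bl hG).1 hz).1
  -- approximation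
  have happ : ∀ w ∈ F, ∃ z ∈ G, ‖w - f z‖ ≤ n * τ := by
    intro w hw
    rw [hF, Submodule.mem_span_range_iff_exists_fun] at hw
    obtain ⟨c, rfl⟩ := hw
    refine ⟨∑ i, ((⌊c i⌋ : ℤ) : ℂ) * x i, ?_, ?_⟩
    · exact G.sum_mem fun i _ => mem_of_int_mul _ (hxG i).1
    · rw [map_sum, ← Finset.sum_sub_distrib]
      refine (norm_sum_le _ _).trans ?_
      have h1 : ∀ i ∈ (Finset.univ : Finset (Fin n)),
          ‖c i • f (x i) - f (((⌊c i⌋ : ℤ) : ℂ) * x i)‖ ≤ τ := by
        intro i _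
        rw [f_int, ← sub_smul, norm_smul, Real.norm_eq_abs]
        have h2 : |c i - (⌊c i⌋ : ℝ)| ≤ 1 := by
          have h3 := Int.floor_le (c i)
          have h4 := Int.lt_floor_add_one (c i)
          rw [abs_le]
          constructor <;> linarith
        calc |c i - (⌊c i⌋ : ℝ)| * ‖f (x i)‖ ≤ 1 * τ :=
              mul_le_mul h2 (hxG i).2 (norm_nonneg _) zero_le_one
          _ = τ := one_mul τ
      have h5 := Finset.sum_le_card_nsmul _ _ _ h1
      rw [Finset.card_univ, Fintype.card_fin, nsmul_eq_mul] at h5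
      exact h5
  -- the maximal separated set
  obtain ⟨Y, hYB, hY1, hY2⟩ := exists_sep (bl f G (1 / 2)) (fun u v => ‖f (u - v)‖) (2 * r)
    (by positivity) (fun u _ => by simp) (fun u v => by
      show ‖f (u - v)‖ = ‖f (v - u)‖
      rw [← neg_sub v u, map_neg, norm_neg])
  have hYG : ∀ y ∈ Y, y ∈ G ∧ ‖f y‖ ≤ 1 / 2 := fun y hy => (mem_bl hG).1 (hYB hy)
  -- packing
  have hpack : (Y.card : ℝ) * cnt f G r ≤ cnt f G 1 := by
    have hinj : Set.InjOn (fun p : ℂ × ℂ => p.1 + p.2) (Y ×ˢ bl f G r : Finset (ℂ × ℂ)) := by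
      rintro ⟨y, u⟩ h1 ⟨y', u'⟩ h2 h3
      rw [Finset.mem_coe, Finset.mem_product] at h1 h2
      simp only at h1 h2 h3
      by_cases hyy : y = y'
      · subst hyy
        have := add_left_cancel h3
        rw [this]
      · exfalso
        have h4 := hY1 y h1.1 y' h2.1 hyy
        have h5 : y - y' = u' - u := by
          linear_combination h3
        have h6 := ((mem_bl hG).1 h1.2).2
        have h7 := ((mem_bl hG).1 h2.2).2
        simp only [h5] at h4
        rw [map_sub] at h4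
        have := norm_sub_le (f u') (f u)
        linarith
    have hsub : (Y ×ˢ bl f G r).image (fun p : ℂ × ℂ => p.1 + p.2) ⊆ bl f G 1 := by
      intro z hz
      rw [Finset.mem_image] at hz
      obtain ⟨p, hp, rfl⟩ := hz
      rw [Finset.mem_product] at hp
      have h1 := add_mem_bl hG (hYB hp.1) hp.2
      refine bl_mono hG ?_ h1
      nlinarith
    have hc := Finset.card_le_card hsub
    rw [Finset.card_image_of_injOn hinj, Finset.card_product] at hc
    exact_mod_cast hc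
  -- volumes
  have hvol : (1 / 2 - n * τ) ^ finrank ℝ F ≤
      (Y.card : ℝ) * (2 * r + n * τ) ^ finrank ℝ F := by
    have hnτ : (n : ℝ) * τ ≤ n * r := mul_le_mul_of_nonneg_left hτr hd0
    have hnr : 8 * ((n : ℝ) * r) ≤ 1 := by nlinarith
    have h1 := cover_card (F := F) (Y.attach.image fun y => (⟨f y.1, hfF y.1 (hYG y.1 y.2).1⟩ : F))
      (1 / 2 - n * τ) (2 * r + n * τ) (by linarith) (by positivity) ?_
    · refine h1.trans (mul_le_mul_of_nonneg_right ?_ (by positivity))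
      have h2 := Finset.card_image_le (s := Y.attach)
        (f := fun y => (⟨f y.1, hfF y.1 (hYG y.1 y.2).1⟩ : F))
      rw [Finset.card_attach] at h2
      exact_mod_cast h2
    · intro w hw
      obtain ⟨z, hz, hwz⟩ := happ w.1 w.2
      have hw' : ‖(w : E)‖ ≤ 1 / 2 - n * τ := hw
      have hz2 : ‖f z‖ ≤ 1 / 2 := by
        have h3 : ‖f z‖ ≤ ‖(w : E)‖ + ‖(w : E) - f z‖ := by
          have h4 : f z = (w : E) - ((w : E) - f z) := by abel
          calc ‖f z‖ = ‖(w : E) - ((w : E) - f z)‖ := by rw [← h4]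
            _ ≤ ‖(w : E)‖ + ‖(w : E) - f z‖ := norm_sub_le _ _
        linarith
      obtain ⟨y, hy, hzy⟩ := hY2 z ((mem_bl hG).2 ⟨hz, hz2⟩)
      refine ⟨⟨f y, hfF y (hYG y hy).1⟩, ?_, ?_⟩
      · rw [Finset.mem_image]
        exact ⟨⟨y, hy⟩, Finset.mem_attach _ _, rfl⟩
      · show ‖(w : E) - f y‖ ≤ _
        have h5 : (w : E) - f y = ((w : E) - f z) + f (z - y) := by
          rw [map_sub]
          abel
        rw [h5]
        refine (norm_add_le _ _).trans ?_
        have h6 : ‖f (z - y)‖ ≤ 2 * r := hzy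
        linarith
  -- the end
  have hnτ : (n : ℝ) * τ ≤ n * r := mul_le_mul_of_nonneg_left hτr hd0
  have hnr : 8 * ((n : ℝ) * r) ≤ 1 := by nlinarith
  set k := finrank ℝ F with hkdef
  have hv1 : (1 / 4 : ℝ) ^ k ≤ (Y.card : ℝ) * (((n : ℝ) + 2) * r) ^ k := by
    calc (1 / 4 : ℝ) ^ k ≤ (1 / 2 - n * τ) ^ k :=
          pow_le_pow_left₀ (by norm_num) (by linarith) _
      _ ≤ (Y.card : ℝ) * (2 * r + n * τ) ^ k := hvol
      _ ≤ (Y.card : ℝ) * (((n : ℝ) + 2) * r) ^ k := by
          apply mul_le_mul_of_nonneg_left _ (Nat.cast_nonneg _)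
          apply pow_le_pow_left₀ (by positivity)
          linarith
  have hv2 : (1 : ℝ) ≤ (Y.card : ℝ) * (4 * ((n : ℝ) + 2) * r) ^ k := by
    have h1 : (4 : ℝ) ^ k * (1 / 4 : ℝ) ^ k = 1 := by
      rw [← mul_pow]
      norm_num
    have h2 : (Y.card : ℝ) * (4 * ((n : ℝ) + 2) * r) ^ k =
        4 ^ k * ((Y.card : ℝ) * (((n : ℝ) + 2) * r) ^ k) := by
      rw [mul_assoc 4, mul_pow]
      ring
    rw [h2, ← h1]
    exact mul_le_mul_of_nonneg_left hv1 (by positivity)
  have hle1 : 4 * ((n : ℝ) + 2) * r ≤ 1 := by nlinarith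
  have hv3 : (1 : ℝ) ≤ (Y.card : ℝ) * (4 * ((n : ℝ) + 2) * r) ^ n := by
    refine hv2.trans (mul_le_mul_of_nonneg_left ?_ (Nat.cast_nonneg _))
    exact pow_le_pow_of_le_one (by positivity) hle1 hk
  calc (cnt f G r : ℝ) = 1 * cnt f G r := (one_mul _).symm
    _ ≤ ((Y.card : ℝ) * (4 * ((n : ℝ) + 2) * r) ^ n) * cnt f G r :=
        mul_le_mul_of_nonneg_right hv3 (Nat.cast_nonneg _)
    _ = (4 * ((n : ℝ) + 2) * r) ^ n * ((Y.card : ℝ) * cnt f G r) := by ring
    _ ≤ (4 * ((n : ℝ) + 2) * r) ^ n * cnt f G 1 :=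
        mul_le_mul_of_nonneg_left hpack (by positivity)

end Pool.Agent.PLG.H46
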